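import Pool.Agent.Lib.MP_211349_ag.Defs

/-!
# PART M, schemes: charts of smooth `O`-schemes and centres of valuation rings
-/

open CategoryTheory Limits AlgebraicGeometry Polynomial

universe u

noncomputable section

namespace Pool.Agent.Lib.MP_211349_ag

/-! ## Charts -/

/-- An affine open subscheme `j : Spec A → X` of an `O`-scheme. -/
structure Chart {R : Type u} [CommRing R] {X : Scheme.{u}} (f : X ⟶ Spec (.of R)) where
  A : Type u
  [ring : CommRing A]
  [alg : Algebra R A]
  j : Spec (.of A) ⟶ X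
  [op : IsOpenImmersion j]
  hj : j ≫ f = Spec.map (CommRingCat.ofHom (algebraMap R A))

attribute [instance] Chart.ring Chart.alg Chart.op

section general

variable {R : Type u} [CommRing R] {X : Scheme.{u}} {f : X ⟶ Spec (.of R)}

-- BEGIN MS1
/-- (MS1) Smooth schemes have charts that are standard étale over a polynomial ring:
take an affine open neighbourhood `Spec A₀` of the point (`X.affineCover`), `A₀` is smooth over `R`
(`HasRingHomProperty.Spec_iff`), and `Algebra.IsSmoothAt.exists_isStandardEtale_mvPolynomial`. -/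
theorem exists_chart [Smooth f] (x : X) : ∃ (c : Chart f) (n : ℕ)
    (_ : Algebra (MvPolynomial (Fin n) R) c.A), IsScalarTower R (MvPolynomial (Fin n) R) c.A ∧
    Algebra.IsStandardEtale (MvPolynomial (Fin n) R) c.A ∧ x ∈ Set.range c.j := by
  obtain ⟨B, j₀, hop, y, hy⟩ : ∃ (B : CommRingCat.{u}) (j₀ : Spec B ⟶ X), IsOpenImmersion j₀ ∧
      ∃ y, j₀ y = x :=
    ⟨X.affineOpenCover.X (X.affineOpenCover.idx x), X.affineOpenCover.f (X.affineOpenCover.idx x),
      inferInstance, X.affineOpenCover.covers x⟩
  have hsm : Smooth (Spec.map (Spec.preimage (j₀ ≫ f))) := by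
    rw [Spec.map_preimage]
    infer_instance
  rw [HasRingHomProperty.Spec_iff (P := @Smooth)] at hsm
  let : Algebra R B := (Spec.preimage (j₀ ≫ f)).hom.toAlgebra
  have hsm' : Algebra.Smooth R B := hsm
  have hyp : y.asIdeal.IsPrime := y.isPrime
  have : Algebra.FinitePresentation R B := inferInstance
  have : Algebra.IsSmoothAt R y.asIdeal := inferInstance
  obtain ⟨g, hg, n, halg, htow, het⟩ :=
    Algebra.IsSmoothAt.exists_isStandardEtale_mvPolynomial (R := R) (S := B) (p := y.asIdeal)
  let j : Spec (.of (Localization.Away g)) ⟶ X :=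
    Spec.map (CommRingCat.ofHom (algebraMap B (Localization.Away g))) ≫ j₀
  have hj : j ≫ f = Spec.map (CommRingCat.ofHom (algebraMap R (Localization.Away g))) := by
    rw [Category.assoc, ← Spec.map_preimage (j₀ ≫ f), ← Spec.map_comp]
    congr 1
  have hopj : IsOpenImmersion j := inferInstance
  refine ⟨{ A := Localization.Away g, j := j, hj := hj, op := hopj }, n, halg, htow, het, ?_⟩
  have hyr : y ∈ Set.range (Spec.map (CommRingCat.ofHom (algebraMap B (Localization.Away g)))) := by
    have h := PrimeSpectrum.localization_away_comap_range (Localization.Away g) g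
    have h2 : y ∈ (PrimeSpectrum.basicOpen g : Set (PrimeSpectrum B)) := hg
    rw [← h] at h2
    exact h2
  obtain ⟨z, hz⟩ := hyr
  refine ⟨z, ?_⟩
  change (Spec.map (CommRingCat.ofHom (algebraMap B (Localization.Away g))) ≫ j₀) z = x
  rw [Scheme.Hom.comp_apply, hz, hy]
-- END MS1

/-- The morphism `Spec (A ⊗ T) → X ×_R Spec T` of a chart. -/
def Chart.base (c : Chart f) (T : Type u) [CommRing T] [Algebra R T] :
    Spec (.of (TensorProduct R c.A T)) ⟶ pullback f (Spec.map (CommRingCat.ofHom (algebraMap R T))) :=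
  pullback.lift (Spec.map (CommRingCat.ofHom
      (Algebra.TensorProduct.includeLeft (R := R) (S := R) (A := c.A) (B := T)).toRingHom) ≫ c.j)
    (Spec.map (CommRingCat.ofHom
      (Algebra.TensorProduct.includeRight (R := R) (A := c.A) (B := T)).toRingHom)) (by
      rw [Category.assoc, c.hj, ← Spec.map_comp, ← Spec.map_comp, ← CommRingCat.ofHom_comp,
        ← CommRingCat.ofHom_comp]
      congr 2
      ext a
      simp)

-- BEGIN MS3
/-- (MS3) `Spec (A ⊗ T)` is the pullback of the open immersion `c.j`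
(`pullbackSpecIso`, pasting of pullbacks). -/
instance Chart.base_isOpenImmersion (c : Chart f) (T : Type u) [CommRing T] [Algebra R T] :
    IsOpenImmersion (c.base T) := by
  have key : c.base T = (pullbackSpecIso R c.A T).inv ≫
      pullback.map (Spec.map (CommRingCat.ofHom (algebraMap R c.A)))
        (Spec.map (CommRingCat.ofHom (algebraMap R T))) f
        (Spec.map (CommRingCat.ofHom (algebraMap R T))) c.j (𝟙 _) (𝟙 _)
        (by rw [Category.comp_id, c.hj]) (by rw [Category.comp_id, Category.id_comp]) := by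
    apply pullback.hom_ext
    · rw [Category.assoc, pullback.map, pullback.lift_fst, pullbackSpecIso_inv_fst_assoc,
        Chart.base, pullback.lift_fst]
      rfl
    · rw [Category.assoc, pullback.map, pullback.lift_snd, Category.comp_id,
        pullbackSpecIso_inv_snd, Chart.base, pullback.lift_snd]
      rfl
  rw [key]
  infer_instance
-- END MS3

-- BEGIN MS2
/-- (MS2) A chart gives a chart of the base change: `Spec (A ⊗ T) → X ×_R Spec T` is an open immersion,
hence if `X ×_R Spec T` is integral and `A ⊗ T ≠ 0` then `A ⊗ T` is a domain. -/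
theorem chart_isDomain (c : Chart f) (T : Type u) [CommRing T] [Algebra R T]
    (h : IsIntegral (pullback f (Spec.map (CommRingCat.ofHom (algebraMap R T)))))
    [Nontrivial (TensorProduct R c.A T)] : IsDomain (TensorProduct R c.A T) := by
  have h1 : IsIntegral (Spec (.of (TensorProduct R c.A T))) :=
    isIntegral_of_isOpenImmersion (c.base T)
  exact (affine_isIntegral_iff (.of (TensorProduct R c.A T))).mp h1
-- END MS2

end general

section local_ring

-- BEGIN MS4
/-- (MS4) A morphism from the spectrum of a local ring whose closed point maps into the chart factors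
through the chart (`AlgebraicGeometry.Scheme.preimage_eq_top_of_closedPoint_mem`,
`IsOpenImmersion.lift`, `Spec.preimage`). -/
theorem exists_factor {R : Type u} [CommRing R] {X : Scheme.{u}} {f : X ⟶ Spec (.of R)}
    (c : Chart f) (S : Type u) [CommRing S] [IsLocalRing S] (ℓ : Spec (.of S) ⟶ X)
    (h : ℓ (IsLocalRing.closedPoint S) ∈ Set.range c.j) :
    ∃ ψ : c.A →+* S, Spec.map (CommRingCat.ofHom ψ) ≫ c.j = ℓ := by
  have htop : ℓ ⁻¹ᵁ c.j.opensRange = ⊤ :=
    Scheme.preimage_eq_top_of_closedPoint_mem (R := .of S) ℓ h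
  have hr : Set.range ℓ ⊆ Set.range c.j := by
    rintro _ ⟨s, rfl⟩
    have : s ∈ ℓ ⁻¹ᵁ c.j.opensRange := by
      rw [htop]
      trivial
    exact this
  refine ⟨(Spec.preimage (IsOpenImmersion.lift c.j ℓ hr)).hom, ?_⟩
  rw [CommRingCat.ofHom_hom, Spec.map_preimage, IsOpenImmersion.lift_fac]
-- END MS4

end local_ring

section valuation

variable {K : Type u} [Field K] {O : ValuationSubring K}

/-- The ring homomorphism `O → v` for a valuation ring `v` over `O`. -/
def overHom {L : Type u} [Field L] [Algebra K L] {v : ValuationSubring L} (hv : Over O v) :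
    O →+* v :=
  ((algebraMap K L).comp O.subtype).codRestrict v.toSubring fun a => by
    have h : (a : K) ∈ v.comap (algebraMap K L) := by
      rw [hv]
      exact a.2
    exact h

variable {X C : Scheme.{u}} [IsIntegral C] {f : X ⟶ Spec (.of O)} {g : C ⟶ Spec (.of K)}
  {i : C ⟶ X} (hi : IsPullback i g f (genPt O))

/-- The generic point `Spec K(C) → C → X` of the generic fibre. -/
def ptX (i : C ⟶ X) : Spec (.of C.functionField) ⟶ X := C.fromSpecStalk (genericPoint C) ≫ i

-- BEGIN MS0
/-- (MS0) The generic point of `C` as an `R`-scheme. (Compare global sections: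
`Scheme.fromSpecStalk_appTop`, `ΓSpec.adjunction` / `Scheme.toSpecΓ_naturality`.) -/
theorem fromSpecStalk_comp {R : Type u} [CommRing R] {C : Scheme.{u}} [IsIntegral C]
    (g : C ⟶ Spec (.of R)) : C.fromSpecStalk (genericPoint C) ≫ g =
      Spec.map (CommRingCat.ofHom (toFunctionField g)) := by
  apply ext_of_isAffine
  have h2 := Scheme.ΓSpecIso_inv_naturality (CommRingCat.ofHom (toFunctionField g))
  have h3 : CommRingCat.ofHom (toFunctionField g) = (Scheme.ΓSpecIso (.of R)).inv ≫ g.appTop ≫
      C.presheaf.germ ⊤ (genericPoint C) trivial := rfl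
  have h4 : (Spec.map (CommRingCat.ofHom (toFunctionField g))).appTop =
      (Scheme.ΓSpecIso (.of R)).hom ≫ CommRingCat.ofHom (toFunctionField g) ≫
        (Scheme.ΓSpecIso C.functionField).inv :=
    (Iso.inv_comp_eq _).mp h2.symm
  rw [h4, h3, Scheme.Hom.comp_appTop, Scheme.fromSpecStalk_appTop]
  simp only [Category.assoc, Iso.hom_inv_id_assoc]
  have : (homOfLE (le_top : (⊤ : (Spec (C.presheaf.stalk (genericPoint C))).Opens) ≤ ⊤)).op = 𝟙 _ :=
    Subsingleton.elim _ _
  erw [this, CategoryTheory.Functor.map_id, Category.comp_id]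
-- END MS0

-- BEGIN MS5
include hi in
/-- (MS5) Valuative criterion: `UniversallyClosed.eq_valuativeCriterion`. -/
theorem exists_lift [UniversallyClosed f] :
    letI := (toFunctionField g).toAlgebra
    ∀ (v : ValuationSubring C.functionField) (hv : Over O v), ∃ ℓ : Spec (.of v) ⟶ X,
      Spec.map (CommRingCat.ofHom v.subtype) ≫ ℓ = ptX i ∧
      ℓ ≫ f = Spec.map (CommRingCat.ofHom (overHom hv)) := by
  let : Algebra K C.functionField := (toFunctionField g).toAlgebra
  intro v hv
  have hvc : ValuativeCriterion.Existence f := by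
    have h : UniversallyClosed f := inferInstance
    rw [UniversallyClosed.eq_valuativeCriterion] at h
    exact h.1
  have hcomm : CommSq (ptX i) (Spec.map (CommRingCat.ofHom (algebraMap v C.functionField))) f
      (Spec.map (CommRingCat.ofHom (overHom hv))) := by
    refine ⟨?_⟩
    rw [ptX, Category.assoc, hi.w, ← Category.assoc, fromSpecStalk_comp, genPt, ← Spec.map_comp,
      ← Spec.map_comp]
    congr 1
  obtain ⟨⟨l⟩⟩ := hvc ⟨v, C.functionField, ptX i, Spec.map (CommRingCat.ofHom (overHom hv)), hcomm⟩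
  exact ⟨l.l, l.fac_left, l.fac_right⟩
-- END MS5

-- BEGIN MS6
/-- (MS6) `O → v` is a local homomorphism. -/
theorem overHom_local {L : Type u} [Field L] [Algebra K L] {v : ValuationSubring L}
    (hv : Over O v) : IsLocalHom (overHom hv) := by
  refine ⟨fun a ha => ?_⟩
  obtain ⟨b, hb⟩ := ha.exists_right_inv
  have hb' : algebraMap K L (a : K) * (b : L) = 1 := congrArg Subtype.val hb
  have ha0 : (a : K) ≠ 0 := by
    intro h
    rw [h, map_zero, zero_mul] at hb'
    exact zero_ne_one hb'
  have hb2 : (b : L) = algebraMap K L (a : K)⁻¹ := by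
    rw [map_inv₀]
    exact eq_inv_of_mul_eq_one_right hb'
  have hmem : (a : K)⁻¹ ∈ O := by
    have h1 : (a : K)⁻¹ ∈ v.comap (algebraMap K L) := by
      rw [ValuationSubring.mem_comap, ← hb2]
      exact b.2
    rwa [hv] at h1
  refine IsUnit.of_mul_eq_one (⟨(a : K)⁻¹, hmem⟩ : O) ?_
  exact Subtype.ext (mul_inv_cancel₀ ha0)
-- END MS6

-- BEGIN MS7
/-- (MS7) If the closed point of `Spec v` maps to a point of the chart, the chart is not empty over
the closed point of `Spec O`. -/
theorem map_ne_top_of_factor {L : Type u} [Field L] [Algebra K L] {v : ValuationSubring L}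
    (hv : Over O v) (A : Type u) [CommRing A] [Algebra O A] (ψ : A →+* v)
    (hψ : ψ.comp (algebraMap O A) = overHom hv) :
    (IsLocalRing.maximalIdeal O).map (algebraMap O A) ≠ ⊤ := by
  intro h
  have hle : (IsLocalRing.maximalIdeal O).map (algebraMap O A) ≤
      (IsLocalRing.maximalIdeal v).comap ψ := by
    rw [Ideal.map_le_iff_le_comap, Ideal.comap_comap, hψ]
    have := overHom_local hv
    intro a ha
    rw [Ideal.mem_comap, IsLocalRing.mem_maximalIdeal, mem_nonunits_iff] at *
    intro hu
    exact ha (isUnit_of_map_unit (overHom hv) a hu)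
  rw [h, top_le_iff] at hle
  exact (Ideal.comap_ne_top ψ (IsLocalRing.maximalIdeal.isMaximal v).ne_top) hle
-- END MS7

-- BEGIN MS8
include hi in
/-- (MS8) A homomorphism `φ : A → K(C)` describing the generic point of `C` in a chart of `X` is
compatible with the `O`-structures. (`Spec.map φ ≫ c.j ≫ f` and `ptX i ≫ f`; `Spec.map_injective`.) -/
theorem chart_hom_algebraMap (c : Chart f) (φ : c.A →+* C.functionField)
    (hφ : Spec.map (CommRingCat.ofHom φ) ≫ c.j = ptX i) (a : O) :
    φ (algebraMap O c.A a) = toFunctionField g (a : K) := by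
  have h1 : Spec.map (CommRingCat.ofHom φ) ≫ c.j ≫ f = ptX i ≫ f := by
    rw [← Category.assoc, hφ]
  rw [c.hj, ptX, Category.assoc, hi.w, ← Category.assoc, fromSpecStalk_comp, genPt,
    ← Spec.map_comp, ← Spec.map_comp] at h1
  have h2 := Spec.map_injective h1
  have h3 := congrArg (fun h => h.hom a) h2
  exact h3
-- END MS8

-- BEGIN MS14
theorem ms14_key {C : Scheme.{u}} [IsIntegral C] (B : Type u) [CommRing B]
    (j : Spec (.of B) ⟶ C) [IsOpenImmersion j] (ψ : B →+* C.functionField)
    (hψ : Spec.map (CommRingCat.ofHom ψ) ≫ j = C.fromSpecStalk (genericPoint C))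
    (hx : genericPoint C ∈ j ''ᵁ ⊤) :
    (j.appIso ⊤).hom ≫ (Scheme.ΓSpecIso (.of B)).hom ≫ CommRingCat.ofHom ψ =
      C.presheaf.germ (j ''ᵁ ⊤) (genericPoint C) hx := by
  have h0 : (⊤ : (Spec C.functionField).Opens) ≤
      C.fromSpecStalk (genericPoint C) ⁻¹ᵁ (j ''ᵁ ⊤) := by
    rw [← hψ]
    intro y _
    exact ⟨_, trivial, rfl⟩
  have h1 : (C.fromSpecStalk (genericPoint C)).appLE (j ''ᵁ ⊤) ⊤ h0 =
      C.presheaf.germ (j ''ᵁ ⊤) (genericPoint C) hx ≫
        (Scheme.ΓSpecIso (C.presheaf.stalk (genericPoint C))).inv := by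
    rw [Scheme.Hom.appLE, Scheme.fromSpecStalk_app hx, Category.assoc, Category.assoc,
      ← Functor.map_comp]
    have : ((homOfLE (le_top : C.fromSpecStalk (genericPoint C) ⁻¹ᵁ (j ''ᵁ ⊤) ≤ ⊤)).op ≫
      (homOfLE h0).op) = 𝟙 _ := Subsingleton.elim _ _
    rw [this, CategoryTheory.Functor.map_id, Category.comp_id]
  have h2 : (C.fromSpecStalk (genericPoint C)).appLE (j ''ᵁ ⊤) ⊤ h0 =
      (j.appIso ⊤).hom ≫ (Spec.map (CommRingCat.ofHom ψ)).appTop := by
    rw [Scheme.Hom.appIso_hom']
    have : ∀ (g : Spec C.functionField ⟶ C) (hg : g = Spec.map (CommRingCat.ofHom ψ) ≫ j)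
      (h : (⊤ : (Spec C.functionField).Opens) ≤ g ⁻¹ᵁ (j ''ᵁ ⊤)),
      g.appLE (j ''ᵁ ⊤) ⊤ h = j.appLE (j ''ᵁ ⊤) ⊤ (Scheme.Hom.preimage_image_eq j ⊤).ge ≫
        (Spec.map (CommRingCat.ofHom ψ)).appTop := by
      intro g hg h
      subst hg
      have e : (Spec.map (CommRingCat.ofHom ψ)).appTop =
        (Spec.map (CommRingCat.ofHom ψ)).appLE ⊤ ⊤ le_rfl := Scheme.Hom.app_eq_appLE _
      rw [e]
      exact (Scheme.Hom.appLE_comp_appLE (Spec.map (CommRingCat.ofHom ψ)) j (j ''ᵁ ⊤) ⊤ ⊤
        (Scheme.Hom.preimage_image_eq j ⊤).ge le_rfl).symm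
    exact this _ hψ.symm h0
  have h3 := Scheme.ΓSpecIso_naturality (CommRingCat.ofHom ψ)
  have h4 : (j.appIso ⊤).hom ≫ (Spec.map (CommRingCat.ofHom ψ)).appTop ≫
      (Scheme.ΓSpecIso (C.presheaf.stalk (genericPoint C))).hom =
      C.presheaf.germ (j ''ᵁ ⊤) (genericPoint C) hx := by
    rw [← Category.assoc, ← h2, h1, Category.assoc, Iso.inv_hom_id, Category.comp_id]
  rw [← h4]
  congr 1
  exact h3.symm

/-- (MS14) Let `j : Spec B → C` be an open immersion into an integral scheme, `ψ : B → K(C)` the
homomorphism given by the generic point. Then `ψ` is injective and `K(C)` is the fraction field of `B`.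
(`genericPoint_eq_of_isOpenImmersion`, `genericPoint_eq_bot_of_affine`, `j` induces an isomorphism of the
stalks at the generic points; or `functionField_isFractionRing_of_isAffineOpen` for the
affine open `j.opensRange`.) -/
theorem open_generic {C : Scheme.{u}} [IsIntegral C] (B : Type u) [CommRing B]
    (j : Spec (.of B) ⟶ C) [IsOpenImmersion j] (ψ : B →+* C.functionField)
    (hψ : Spec.map (CommRingCat.ofHom ψ) ≫ j = C.fromSpecStalk (genericPoint C)) :
    Function.Injective ψ ∧ ∀ z : C.functionField, ∃ a b : B, ψ b ≠ 0 ∧ z = ψ a / ψ b := by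
  have hx : genericPoint C ∈ j ''ᵁ ⊤ := by
    refine ⟨Spec.map (CommRingCat.ofHom ψ) (IsLocalRing.closedPoint C.functionField), trivial, ?_⟩
    have h1 : (Spec.map (CommRingCat.ofHom ψ) ≫ j) (IsLocalRing.closedPoint C.functionField) =
        (C.fromSpecStalk (genericPoint C)) (IsLocalRing.closedPoint C.functionField) := by
      rw [hψ]
    have h2 : (C.fromSpecStalk (genericPoint C)) (IsLocalRing.closedPoint C.functionField) =
        genericPoint C := Scheme.fromSpecStalk_closedPoint
    rw [h2] at h1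
    exact h1
  have hne : Nonempty (j ''ᵁ ⊤) := ⟨⟨_, hx⟩⟩
  have hU : IsAffineOpen (j ''ᵁ ⊤) := (isAffineOpen_top (Spec (.of B))).image_of_isOpenImmersion j
  have hfr := functionField_isFractionRing_of_isAffineOpen C (j ''ᵁ ⊤) hU
  have key := ms14_key B j ψ hψ hx
  have key2 : ∀ s : Γ(C, j ''ᵁ ⊤), ψ ((Scheme.ΓSpecIso (.of B)).hom.hom
      ((j.appIso ⊤).hom.hom s)) = algebraMap Γ(C, j ''ᵁ ⊤) C.functionField s := by
    intro s
    have := congrArg (fun h => h.hom s) key
    exact this
  have key3 : ∀ b : B, ∃ s : Γ(C, j ''ᵁ ⊤), (Scheme.ΓSpecIso (.of B)).hom.hom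
      ((j.appIso ⊤).hom.hom s) = b := by
    intro b
    have hs := ((ConcreteCategory.bijective_of_isIso
      ((j.appIso ⊤).hom ≫ (Scheme.ΓSpecIso (.of B)).hom)).2) b
    obtain ⟨s, hs⟩ := hs
    exact ⟨s, hs⟩
  refine ⟨?_, ?_⟩
  · intro a b hab
    obtain ⟨s, rfl⟩ := key3 a
    obtain ⟨t, rfl⟩ := key3 b
    rw [key2, key2] at hab
    rw [IsFractionRing.injective Γ(C, j ''ᵁ ⊤) C.functionField hab]
  · intro z
    obtain ⟨s, t, ht, rfl⟩ := IsFractionRing.div_surjective (A := Γ(C, j ''ᵁ ⊤)) z
    refine ⟨(Scheme.ΓSpecIso (.of B)).hom.hom ((j.appIso ⊤).hom.hom s),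
      (Scheme.ΓSpecIso (.of B)).hom.hom ((j.appIso ⊤).hom.hom t), ?_, ?_⟩
    rotate_left
    · rw [key2 s, key2 t]
    · rw [key2]
      intro h0
      have : t = 0 := by
        apply IsFractionRing.injective Γ(C, j ''ᵁ ⊤) C.functionField
        rw [h0, map_zero]
      rw [this] at ht
      have hn : Nontrivial Γ(C, j ''ᵁ ⊤) := inferInstance
      exact zero_notMem_nonZeroDivisors ht
-- END MS14

-- BEGIN MS9
include hi in
/-- (MS9) The generic fibre of the chart: `A ⊗ K → K(C)` is injective and `K(C)` is the fraction field.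
`ψ = Algebra.TensorProduct.lift` of `φ` and `toFunctionField g` (compatible by (MS8)). By (MS3)
`c.base K ≫ hi.isoPullback.inv : Spec (A ⊗ K) → C` is an open immersion, and
`Spec.map ψ ≫ c.base K ≫ hi.isoPullback.inv = C.fromSpecStalk _` (`hi.hom_ext`, `hφ`, (MS0)). Use (MS14). -/
theorem chart_generic (c : Chart f) (φ : c.A →+* C.functionField)
    (hφ : Spec.map (CommRingCat.ofHom φ) ≫ c.j = ptX i) :
    ∃ ψ : TensorProduct O c.A K →+* C.functionField, Function.Injective ψ ∧
      (∀ a x, ψ (a ⊗ₜ x) = φ a * toFunctionField g x) ∧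
      ∀ z : C.functionField, ∃ a b : TensorProduct O c.A K, ψ b ≠ 0 ∧ z = ψ a / ψ b := by
  let _ : Algebra O C.functionField := ((toFunctionField g).comp (algebraMap O K)).toAlgebra
  let φ' : c.A →ₐ[O] C.functionField :=
    { φ with commutes' := fun r => chart_hom_algebraMap hi c φ hφ r }
  let t' : K →ₐ[O] C.functionField := { toFunctionField g with commutes' := fun r => rfl }
  let ψ : TensorProduct O c.A K →ₐ[O] C.functionField :=
    Algebra.TensorProduct.lift φ' t' (fun _ _ => Commute.all _ _)
  have hψ1 : ∀ a x, ψ (a ⊗ₜ x) = φ a * toFunctionField g x := fun a x => by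
    change Algebra.TensorProduct.lift φ' t' (fun _ _ => Commute.all _ _) (a ⊗ₜ x) = _
    rw [Algebra.TensorProduct.lift_tmul]
    rfl
  have e1 : ψ.toRingHom.comp (Algebra.TensorProduct.includeLeft (R := O) (S := O) (A := c.A)
      (B := K)).toRingHom = φ := by
    ext a
    change ψ (a ⊗ₜ 1) = φ a
    rw [hψ1, map_one, mul_one]
  have e2 : ψ.toRingHom.comp (Algebra.TensorProduct.includeRight (R := O) (A := c.A)
      (B := K)).toRingHom = toFunctionField g := by
    ext a
    change ψ (1 ⊗ₜ a) = toFunctionField g a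
    rw [hψ1, map_one, one_mul]
  obtain ⟨b, hb⟩ : ∃ b : Spec (.of (TensorProduct O c.A K)) ⟶ pullback f (genPt O),
    b = c.base K := ⟨_, rfl⟩
  have hbo : IsOpenImmersion b := by
    rw [hb]
    exact Chart.base_isOpenImmersion c K
  have hj : Spec.map (CommRingCat.ofHom ψ.toRingHom) ≫ (b ≫ hi.isoPullback.inv) =
      C.fromSpecStalk (genericPoint C) := by
    apply hi.hom_ext
    · have h1 : hi.isoPullback.inv ≫ i = pullback.fst f (genPt O) := hi.isoPullback_inv_fst
      have h2 : b ≫ pullback.fst f (genPt O) = Spec.map (CommRingCat.ofHom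
        (Algebra.TensorProduct.includeLeft (R := O) (S := O) (A := c.A) (B := K)).toRingHom) ≫
          c.j := by
        rw [hb]
        exact pullback.lift_fst _ _ _
      rw [Category.assoc, Category.assoc, h1, h2, ← Category.assoc, ← Spec.map_comp,
        ← CommRingCat.ofHom_comp, e1, hφ, ptX]
    · have h1 : hi.isoPullback.inv ≫ g = pullback.snd f (genPt O) := hi.isoPullback_inv_snd
      have h2 : b ≫ pullback.snd f (genPt O) = Spec.map (CommRingCat.ofHom
        (Algebra.TensorProduct.includeRight (R := O) (A := c.A) (B := K)).toRingHom) := by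
        rw [hb]
        exact pullback.lift_snd _ _ _
      rw [Category.assoc, Category.assoc, h1, h2, ← Spec.map_comp,
        ← CommRingCat.ofHom_comp, e2, fromSpecStalk_comp]
  obtain ⟨h1, h2⟩ := open_generic (TensorProduct O c.A K) (b ≫ hi.isoPullback.inv)
    ψ.toRingHom hj
  exact ⟨ψ.toRingHom, h1, hψ1, h2⟩
-- END MS9

-- BEGIN MS10
include hi in
/-- (MS10) If `A` is flat over `O`, `A → K(C)` is injective: `A → A ⊗ K` is injective. From (MS9). -/
theorem chart_hom_injective (c : Chart f) [Module.Flat O c.A] (φ : c.A →+* C.functionField)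
    (hφ : Spec.map (CommRingCat.ofHom φ) ≫ c.j = ptX i) : Function.Injective φ := by
  obtain ⟨ψ, h1, h2, -⟩ := chart_generic hi c φ hφ
  have h3 : Function.Injective (Algebra.TensorProduct.includeLeft : c.A →ₐ[O] TensorProduct O c.A K) :=
    Algebra.TensorProduct.includeLeft_injective Subtype.val_injective
  intro a b hab
  apply h3
  apply h1
  change ψ (a ⊗ₜ 1) = ψ (b ⊗ₜ 1)
  rw [h2, h2, hab]
-- END MS10

-- BEGIN MS11
include hi in
/-- (MS11) `K(C)` is the field of fractions of the image of `A`: every element of `A ⊗ K` is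
`a ⊗ (1 / s)`. From (MS9), (MS8). -/
theorem chart_hom_frac (c : Chart f) (φ : c.A →+* C.functionField)
    (hφ : Spec.map (CommRingCat.ofHom φ) ≫ c.j = ptX i) (z : C.functionField) :
    ∃ a b : c.A, φ b ≠ 0 ∧ z = φ a / φ b := by
  obtain ⟨ψ, h1, h2, h3⟩ := chart_generic hi c φ hφ
  have hinj : Function.Injective (toFunctionField g) := (toFunctionField g).injective
  have key : ∀ x : TensorProduct O c.A K, ∃ (s : O) (a : c.A), (s : K) ≠ 0 ∧
      toFunctionField g (s : K) * ψ x = φ a := by
    intro x
    induction x using TensorProduct.induction_on with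
    | zero => exact ⟨1, 0, by simp, by simp⟩
    | tmul a x =>
      obtain ⟨p, q, hq, rfl⟩ := IsFractionRing.div_surjective (A := O) x
      have hq0 : ((q : O) : K) ≠ 0 := by
        intro h
        have : q = 0 := Subtype.ext h
        rw [this] at hq
        exact zero_notMem_nonZeroDivisors hq
      refine ⟨q, algebraMap O c.A p * a, hq0, ?_⟩
      have hq1 : toFunctionField g ((q : O) : K) ≠ 0 := by
        rw [Ne, map_eq_zero_iff _ hinj]
        exact hq0
      rw [h2, map_div₀, map_mul, chart_hom_algebraMap hi c φ hφ p]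
      change toFunctionField g ((q : O) : K) * (φ a * (toFunctionField g ((p : O) : K) /
        toFunctionField g ((q : O) : K))) = _
      field_simp
    | add x y hx hy =>
      obtain ⟨s, a, hs, ha⟩ := hx
      obtain ⟨t, b, ht, hb⟩ := hy
      refine ⟨s * t, algebraMap O c.A t * a + algebraMap O c.A s * b, ?_, ?_⟩
      · rw [MulMemClass.coe_mul]
        exact mul_ne_zero hs ht
      · rw [MulMemClass.coe_mul, map_add, map_add, map_mul, map_mul, map_mul,
          chart_hom_algebraMap hi c φ hφ, chart_hom_algebraMap hi c φ hφ, ← ha, ← hb]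
        ring
  obtain ⟨x, y, hy, rfl⟩ := h3 z
  obtain ⟨s, a, hs, ha⟩ := key x
  obtain ⟨t, b, ht, hb⟩ := key y
  have hs1 : toFunctionField g (s : K) ≠ 0 := by
    rw [Ne, map_eq_zero_iff _ hinj]
    exact hs
  have ht1 : toFunctionField g (t : K) ≠ 0 := by
    rw [Ne, map_eq_zero_iff _ hinj]
    exact ht
  refine ⟨algebraMap O c.A t * a, algebraMap O c.A s * b, ?_, ?_⟩
  · rw [map_mul, chart_hom_algebraMap hi c φ hφ, ← hb]
    exact mul_ne_zero hs1 (mul_ne_zero ht1 hy)
  · rw [map_mul, map_mul, chart_hom_algebraMap hi c φ hφ, chart_hom_algebraMap hi c φ hφ, ← ha, ← hb]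
    field_simp
-- END MS11

/-! ## The generic point of the special fibre -/

-- BEGIN MS12
/-- (MS12) `m A` is a prime ideal: (MS2) for `T = k`, `A ⊗ k = A / m A`. -/
theorem map_isPrime (c : Chart f) (hk : IsIntegral (specialFibre O f))
    (h : (IsLocalRing.maximalIdeal O).map (algebraMap O c.A) ≠ ⊤) :
    ((IsLocalRing.maximalIdeal O).map (algebraMap O c.A)).IsPrime := by
  have hn : Nontrivial (c.A ⧸ (IsLocalRing.maximalIdeal O).map (algebraMap O c.A)) :=
    Ideal.Quotient.nontrivial_iff.mpr h
  let e : (c.A ⧸ (IsLocalRing.maximalIdeal O).map (algebraMap O c.A)) ≃ₐ[c.A]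
      TensorProduct O c.A (IsLocalRing.ResidueField O) :=
    Algebra.TensorProduct.quotIdealMapEquivTensorQuot c.A (IsLocalRing.maximalIdeal O)
  have hn2 : Nontrivial (TensorProduct O c.A (IsLocalRing.ResidueField O)) :=
    e.symm.toEquiv.nontrivial
  have hd : IsDomain (TensorProduct O c.A (IsLocalRing.ResidueField O)) :=
    chart_isDomain c _ hk
  have hd2 : IsDomain (c.A ⧸ (IsLocalRing.maximalIdeal O).map (algebraMap O c.A)) :=
    e.toRingEquiv.toMulEquiv.isDomain _
  exact (Ideal.Quotient.isDomain_iff_prime _).mp hd2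
-- END MS12

/-- The image in `X` of the generic point of the special fibre. -/
def eta (f : X ⟶ Spec (.of O)) (hk : IsIntegral (specialFibre O f)) : X :=
  letI := hk
  pullback.fst f (resPt O) (genericPoint (specialFibre O f))

-- BEGIN MS13
/-- (MS13) The point `m A` of the chart is the generic point of the special fibre:
`c.base k : Spec (A ⊗ k) → X_k` maps the generic point to the generic point
(`genericPoint_eq_of_isOpenImmersion`, `genericPoint_eq_bot_of_affine`). -/
theorem chart_point_eq (c : Chart f) (hk : IsIntegral (specialFibre O f))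
    (h : ((IsLocalRing.maximalIdeal O).map (algebraMap O c.A)).IsPrime) :
    c.j ⟨(IsLocalRing.maximalIdeal O).map (algebraMap O c.A), h⟩ = eta f hk := by
  have := hk
  let e : (c.A ⧸ (IsLocalRing.maximalIdeal O).map (algebraMap O c.A)) ≃ₐ[c.A]
      TensorProduct O c.A (IsLocalRing.ResidueField O) :=
    Algebra.TensorProduct.quotIdealMapEquivTensorQuot c.A (IsLocalRing.maximalIdeal O)
  have hd : IsDomain (TensorProduct O c.A (IsLocalRing.ResidueField O)) :=
    e.symm.toRingEquiv.toMulEquiv.isDomain _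
  have hd' : IsDomain (CommRingCat.of (TensorProduct O c.A (IsLocalRing.ResidueField O))) := hd
  obtain ⟨b, hb⟩ : ∃ b : Spec (.of (TensorProduct O c.A (IsLocalRing.ResidueField O))) ⟶
    specialFibre O f, b = c.base (IsLocalRing.ResidueField O) := ⟨_, rfl⟩
  have hbo : IsOpenImmersion b := by
    rw [hb]
    exact Chart.base_isOpenImmersion c _
  have h1 : b (genericPoint
      (Spec (.of (TensorProduct O c.A (IsLocalRing.ResidueField O))))) =
      genericPoint (specialFibre O f) :=
    genericPoint_eq_of_isOpenImmersion b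
  have h2 : b ≫ pullback.fst f (resPt O) =
      Spec.map (CommRingCat.ofHom (Algebra.TensorProduct.includeLeft (R := O) (S := O) (A := c.A)
        (B := IsLocalRing.ResidueField O)).toRingHom) ≫ c.j := by
    rw [hb]
    exact pullback.lift_fst _ _ _
  have h3 : eta f hk = pullback.fst f (resPt O) (b (genericPoint
      (Spec (.of (TensorProduct O c.A (IsLocalRing.ResidueField O)))))) := by
    rw [h1]
    rfl
  have h4 : (b ≫ pullback.fst f (resPt O)) (genericPoint
      (Spec (.of (TensorProduct O c.A (IsLocalRing.ResidueField O))))) =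
      (Spec.map (CommRingCat.ofHom (Algebra.TensorProduct.includeLeft (R := O) (S := O) (A := c.A)
        (B := IsLocalRing.ResidueField O)).toRingHom) ≫ c.j) (genericPoint
      (Spec (.of (TensorProduct O c.A (IsLocalRing.ResidueField O))))) := by
    rw [h2]
  rw [h3]
  refine Eq.trans ?_ h4.symm
  change c.j _ = c.j (Spec.map _ _)
  congr 1
  rw [genericPoint_eq_bot_of_affine]
  apply PrimeSpectrum.ext
  change _ = Ideal.comap (Algebra.TensorProduct.includeLeft (R := O) (S := O) (A := c.A)
        (B := IsLocalRing.ResidueField O)).toRingHom ⊥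
  ext a
  rw [Ideal.mem_comap, Ideal.mem_bot]
  have h5 : e (Ideal.Quotient.mk _ a) = a ⊗ₜ 1 :=
    Algebra.TensorProduct.quotIdealMapEquivTensorQuot_mk _ _ _
  change a ∈ (IsLocalRing.maximalIdeal O).map (algebraMap O c.A) ↔ a ⊗ₜ 1 = 0
  rw [← h5, map_eq_zero_iff e e.injective, Ideal.Quotient.eq_zero_iff_mem]
-- END MS13

end valuation

end Pool.Agent.Lib.MP_211349_ag
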